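import Mathlib
import Pool.Agent.Q98.MuComp
import Pool.Agent.Helper533.Polar.Abs

set_option autoImplicit false

open MeasureTheory Filter Topology

open scoped ENNReal

namespace Pool.Agent.Results.MP_5b7a98_an.MuCompactIsCompact

/-- `A` is `μ`-compact: for every compact `K ⊆ A` the set of all Borel probability measures `μ` on
`A` whose barycentre (Bochner integral) `∫ x dμ(x)` lies in `K` is compact in the space of all
Borel probability measures on `A` with the weak topology (convergence against bounded continuous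
functions on `A`). The σ-algebra of `E` is the Borel one. -/
def IsMuCompact {E : Type*} [NormedAddCommGroup E] [NormedSpace ℝ E] (A : Set E) : Prop :=
  letI : MeasurableSpace E := borel E
  haveI : BorelSpace E := ⟨rfl⟩
  ∀ K : Set E, K ⊆ A → IsCompact K →
    IsCompact {μ : ProbabilityMeasure A | ∫ x, (x : E) ∂(μ : Measure A) ∈ K}

/-- Every `μ`-compact nonempty closed bounded convex subset of `E` is norm-compact. -/
def MuCompactSetsAreCompact (E : Type*) [NormedAddCommGroup E] [NormedSpace ℝ E] : Prop :=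
  ∀ A : Set E, A.Nonempty → IsClosed A → Bornology.IsBounded A → Convex ℝ A → IsMuCompact A →
    IsCompact A

section Proof

/-- the uniform convexity inequality in `ℓ_p` -/
lemma clarkson_lp {p : ℝ} (hp : 1 < p) [Fact (1 ≤ ENNReal.ofReal p)] {η : ℝ} (hη : 0 < η) :
    ∃ C : ℝ, 0 ≤ C ∧ ∀ a b : lp (fun _ : ℕ => ℝ) (ENNReal.ofReal p),
      ‖a - b‖ ^ p ≤ η * (‖a‖ ^ p + ‖b‖ ^ p)
        + C * ((‖a‖ ^ p + ‖b‖ ^ p) / 2 - ‖(2⁻¹ : ℝ) • (a + b)‖ ^ p) := by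
  obtain ⟨C, hC, h⟩ := Pool.Agent.Helper533.Polar.clarkson_pointwise (F := ℝ) hp hη
  have hp0 : 0 < p := by linarith
  have hpr : (ENNReal.ofReal p).toReal = p := ENNReal.toReal_ofReal hp0.le
  refine ⟨C, hC, fun a b => ?_⟩
  have hs : ∀ f : lp (fun _ : ℕ => ℝ) (ENNReal.ofReal p), HasSum (fun n => ‖f n‖ ^ p) (‖f‖ ^ p) := by
    intro f
    have := lp.hasSum_norm (by rw [hpr]; exact hp0) f
    rwa [hpr] at this
  have h1 := hs (a - b)
  have h2 : HasSum (fun n => η * (‖a n‖ ^ p + ‖b n‖ ^ p) +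
      C * ((‖a n‖ ^ p + ‖b n‖ ^ p) / 2 - ‖((2⁻¹ : ℝ) • (a + b)) n‖ ^ p))
      (η * (‖a‖ ^ p + ‖b‖ ^ p) + C * ((‖a‖ ^ p + ‖b‖ ^ p) / 2 - ‖(2⁻¹ : ℝ) • (a + b)‖ ^ p)) :=
    (((hs a).add (hs b)).mul_left η).add
      (((((hs a).add (hs b)).div_const 2).sub (hs ((2⁻¹ : ℝ) • (a + b)))).mul_left C)
  exact hasSum_le (fun n => h (a n) (b n)) h1 h2

/-- The intersection property for decreasing sequences. -/
lemma inter_seq {X : Type*} [NormedAddCommGroup X] [NormedSpace ℝ X] [CompleteSpace X]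
    {p : ℝ} (hp : 1 < p)
    (hUC : ∀ η : ℝ, 0 < η → ∃ C : ℝ, 0 ≤ C ∧ ∀ a b : X, ‖a - b‖ ^ p ≤ η * (‖a‖ ^ p + ‖b‖ ^ p)
      + C * ((‖a‖ ^ p + ‖b‖ ^ p) / 2 - ‖(2⁻¹ : ℝ) • (a + b)‖ ^ p)) :
    ∀ C : ℕ → Set X, (∀ n, IsClosed (C n)) → (∀ n, Convex ℝ (C n)) → Antitone C →
      (∀ n, (C n).Nonempty) → Bornology.IsBounded (C 0) → (⋂ n, C n).Nonempty := by
  intro C h1 h2 h3 h4 h5
  exact Pool.Agent.Helper533.Polar.inter_of_clarkson hp hUC C h1 h2
    (fun i j => ⟨max i j, Set.subset_inter (h3 (le_max_left i j)) (h3 (le_max_right i j))⟩)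
    h4 ⟨0, h5⟩

end Proof

/-- **Theorem.** Let `1 < p < ∞`. In `ℓ_p` and in `L_p[0,1]` every closed bounded convex set which
is `μ`-compact is norm-compact. -/
theorem result (p : ℝ≥0∞) [Fact (1 ≤ p)] (hp : 1 < p) (hp' : p ≠ ∞) :
    MuCompactSetsAreCompact (lp (fun _ : ℕ => ℝ) p) ∧
      MuCompactSetsAreCompact (Lp ℝ p (volume.restrict (Set.Icc (0 : ℝ) 1))) := by
  obtain ⟨q, rfl⟩ : ∃ q : ℝ, p = ENNReal.ofReal q := ⟨p.toReal, (ENNReal.ofReal_toReal hp').symm⟩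
  have hq : 1 < q := by
    by_contra h
    push Not at h
    have h1 : ENNReal.ofReal q ≤ ENNReal.ofReal 1 := ENNReal.ofReal_le_ofReal h
    rw [ENNReal.ofReal_one] at h1
    exact absurd hp (not_lt.2 h1)
  refine ⟨fun A _ hcl hb hcv hA => ?_, fun A _ hcl hb hcv hA => ?_⟩
  · let _ : MeasurableSpace (lp (fun _ : ℕ => ℝ) (ENNReal.ofReal q)) := borel _
    have _ : BorelSpace (lp (fun _ : ℕ => ℝ) (ENNReal.ofReal q)) := ⟨rfl⟩
    exact Q98.MuComp.compact_of_muCompact (inter_seq hq fun η hη => clarkson_lp hq hη)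
      A hcl hcv hb hA
  · let _ : MeasurableSpace (Lp ℝ (ENNReal.ofReal q) (volume.restrict (Set.Icc (0 : ℝ) 1))) :=
      borel _
    have _ : BorelSpace (Lp ℝ (ENNReal.ofReal q) (volume.restrict (Set.Icc (0 : ℝ) 1))) := ⟨rfl⟩
    have hUC : ∀ η : ℝ, 0 < η → ∃ C : ℝ, 0 ≤ C ∧
        ∀ a b : Lp ℝ (ENNReal.ofReal q) (volume.restrict (Set.Icc (0 : ℝ) 1)),
        ‖a - b‖ ^ q ≤ η * (‖a‖ ^ q + ‖b‖ ^ q)
          + C * ((‖a‖ ^ q + ‖b‖ ^ q) / 2 - ‖(2⁻¹ : ℝ) • (a + b)‖ ^ q) := by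
      intro η hη
      exact Pool.Agent.Helper533.Polar.clarkson_Lp hq hη
    have hIP := inter_seq hq hUC
    exact Q98.MuComp.compact_of_muCompact hIP A hcl hcv hb hA

end Pool.Agent.Results.MP_5b7a98_an.MuCompactIsCompact
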